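import Pool.Agent.Helper47.UG.Stmts
import Pool.Agent.Helper71.CP.M2

set_option autoImplicit false

/-!
Project UG, row MT1: upper bound in the first theorem of Mertens.
-/

namespace Pool.Agent.Helper47.UG

open Finset
open Pool.Agent.Helper17.SO (PP LL)

theorem mt1_PP_eq (w : ℕ) : PP 0 w = Pool.Agent.Helper56.CP.PP w := by
  ext p
  rw [PP, Pool.Agent.Helper56.CP.PP, Finset.mem_filter, Finset.mem_filter, Finset.mem_Ioc,
    Finset.mem_range]
  constructor
  · rintro ⟨⟨_, h2⟩, h3⟩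
    exact ⟨by omega, h3⟩
  · rintro ⟨h1, h3⟩
    exact ⟨⟨h3.pos, by omega⟩, h3⟩

theorem st_MT1 : ST_MT1 := by
  refine ⟨Real.log 4, Real.log_nonneg (by norm_num), ?_⟩
  intro w hw
  rw [mt1_PP_eq]
  exact Pool.Agent.Helper56.CP.mtA_le (by omega)

end Pool.Agent.Helper47.UG
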