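import Pool.Agent.Helper47.UG.Stmts

set_option autoImplicit false

/-!
Project UG, row PEU: the Euler product against the logarithmic sum (Rankin's trick).
-/

namespace Pool.Agent.Helper47.UG

open Finset
open Pool.Agent.Helper17.SO (PP LL)

/-- Cauchy product of two geometric series. -/
theorem peu_local {χ y : ℝ} (hy0 : 0 ≤ y) (hy1 : y < 1) (hχ : |χ| ≤ 1) :
    Summable (fun n : ℕ => ‖(∑ l ∈ range (n + 1), χ ^ l) * y ^ n‖) ∧
      ∑' n : ℕ, (∑ l ∈ range (n + 1), χ ^ l) * y ^ n = (1 - y)⁻¹ * (1 - χ * y)⁻¹ := by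
  have hχy : |χ * y| < 1 := by
    rw [abs_mul, abs_of_nonneg hy0]
    calc |χ| * y ≤ 1 * y := mul_le_mul_of_nonneg_right hχ hy0
      _ < 1 := by linarith
  have hf : Summable (fun k : ℕ => ‖(χ * y) ^ k‖) := by
    simp_rw [norm_pow, Real.norm_eq_abs]
    exact summable_geometric_of_lt_one (abs_nonneg _) hχy
  have hg : Summable (fun k : ℕ => ‖y ^ k‖) := by
    simp_rw [norm_pow, Real.norm_eq_abs]
    exact summable_geometric_of_lt_one (abs_nonneg _) (by rw [abs_of_nonneg hy0]; exact hy1)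
  have he : ∀ n : ℕ, ∑ k ∈ range (n + 1), (χ * y) ^ k * y ^ (n - k) =
      (∑ l ∈ range (n + 1), χ ^ l) * y ^ n := by
    intro n
    rw [Finset.sum_mul]
    apply Finset.sum_congr rfl
    intro k hk
    rw [Finset.mem_range] at hk
    rw [mul_pow, mul_assoc, ← pow_add]
    congr 2
    omega
  constructor
  · have := summable_norm_sum_mul_range_of_summable_norm hf hg
    refine this.congr (fun n => ?_)
    rw [he]
  · have := tsum_mul_tsum_eq_tsum_sum_range_of_summable_norm hf hg
    rw [tsum_congr he] at this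
    rw [← this, tsum_geometric_of_abs_lt_one hχy,
      tsum_geometric_of_abs_lt_one (by rw [abs_of_nonneg hy0]; exact hy1)]
    ring

/-- the summand with a general exponent -/
noncomputable def peuf (D : ℕ) (s : ℝ) (n : ℕ) : ℝ := (rr D n : ℝ) * (n : ℝ) ^ (-s)

/-- the Euler product with a general exponent -/
noncomputable def peuP (D : ℕ) (s : ℝ) (x : ℕ) : ℝ :=
  ∏ p ∈ PP 0 x, ((1 - (p : ℝ) ^ (-s))⁻¹ * (1 - (chi D p : ℝ) * (p : ℝ) ^ (-s))⁻¹)

theorem peu_chi_pow {D : ℕ} (h1 : chi D 1 = 1) (hm : ∀ m n : ℕ, chi D (m * n) = chi D m * chi D n)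
    (p l : ℕ) : chi D (p ^ l) = chi D p ^ l := by
  induction l with
  | zero => rw [pow_zero, pow_zero, h1]
  | succ l ih => rw [pow_succ, hm, ih, pow_succ]

theorem peu_rr_mul {D : ℕ} (h1 : chi D 1 = 1) (hm : ∀ m n : ℕ, chi D (m * n) = chi D m * chi D n)
    {m n : ℕ} (hmn : m.Coprime n) : rr D (m * n) = rr D m * rr D n := by
  let F : ArithmeticFunction ℤ := ⟨fun n => if n = 0 then 0 else chi D n, by simp⟩
  have hF : F.IsMultiplicative := by
    constructor
    · show (if (1 : ℕ) = 0 then (0 : ℤ) else chi D 1) = 1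
      rw [if_neg one_ne_zero, h1]
    · intro a b _
      show (if a * b = 0 then (0 : ℤ) else chi D (a * b)) =
        (if a = 0 then (0 : ℤ) else chi D a) * (if b = 0 then (0 : ℤ) else chi D b)
      by_cases ha : a = 0
      · simp [ha]
      · by_cases hb : b = 0
        · simp [hb]
        · rw [if_neg (mul_ne_zero ha hb), if_neg ha, if_neg hb, hm]
  have hrr : ∀ n : ℕ, rr D n = (F * (ArithmeticFunction.zeta : ArithmeticFunction ℤ)) n := by
    intro n
    rw [ArithmeticFunction.coe_mul_zeta_apply, rr]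
    apply Finset.sum_congr rfl
    intro d hd
    have hd0 : d ≠ 0 := (Nat.pos_of_mem_divisors hd).ne'
    show chi D d = (if d = 0 then (0 : ℤ) else chi D d)
    rw [if_neg hd0]
  rw [hrr, hrr, hrr]
  exact (hF.mul ArithmeticFunction.isMultiplicative_zeta.natCast).map_mul_of_coprime hmn

theorem peu_rr_pow {D : ℕ} (h1 : chi D 1 = 1) (hm : ∀ m n : ℕ, chi D (m * n) = chi D m * chi D n)
    {p : ℕ} (hp : p.Prime) (i : ℕ) :
    (rr D (p ^ i) : ℝ) = ∑ l ∈ range (i + 1), (chi D p : ℝ) ^ l := by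
  rw [rr, Nat.sum_divisors_prime_pow hp]
  push_cast
  apply Finset.sum_congr rfl
  intro l _
  rw [peu_chi_pow h1 hm]
  push_cast
  rfl

theorem peu_hasSum {D : ℕ} (h1 : chi D 1 = 1) (hm : ∀ m n : ℕ, chi D (m * n) = chi D m * chi D n)
    (hb : ∀ n : ℕ, |chi D n| ≤ 1) {s : ℝ} (hs : 0 < s) (x : ℕ) :
    HasSum (fun m : (x + 1).smoothNumbers => peuf D s m) (peuP D s x) := by
  have hf1 : peuf D s 1 = 1 := by
    rw [peuf, rr, Nat.divisors_one, Finset.sum_singleton, h1]
    simp
  have hmul : ∀ {m n : ℕ}, m.Coprime n → peuf D s (m * n) = peuf D s m * peuf D s n := by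
    intro m n hmn
    rw [peuf, peuf, peuf, peu_rr_mul h1 hm hmn]
    push_cast
    rw [Real.mul_rpow (Nat.cast_nonneg _) (Nat.cast_nonneg _)]
    ring
  have hpow : ∀ {p : ℕ}, p.Prime → ∀ n : ℕ, peuf D s (p ^ n) =
      (∑ l ∈ range (n + 1), (chi D p : ℝ) ^ l) * ((p : ℝ) ^ (-s)) ^ n := by
    intro p hp n
    rw [peuf, peu_rr_pow h1 hm hp]
    congr 1
    push_cast
    rw [← Real.rpow_natCast, ← Real.rpow_natCast, ← Real.rpow_mul (Nat.cast_nonneg _),
      ← Real.rpow_mul (Nat.cast_nonneg _), mul_comm]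
  have hbd : ∀ {p : ℕ}, p.Prime → 0 ≤ (p : ℝ) ^ (-s) ∧ (p : ℝ) ^ (-s) < 1 ∧ |(chi D p : ℝ)| ≤ 1 := by
    intro p hp
    refine ⟨Real.rpow_nonneg (Nat.cast_nonneg _) _, ?_, ?_⟩
    · exact Real.rpow_lt_one_of_one_lt_of_neg (by exact_mod_cast hp.one_lt) (by linarith)
    · exact_mod_cast hb p
  have hsum : ∀ {p : ℕ}, p.Prime → Summable (fun n : ℕ => ‖peuf D s (p ^ n)‖) := by
    intro p hp
    obtain ⟨b1, b2, b3⟩ := hbd hp
    refine (peu_local b1 b2 b3).1.congr (fun n => ?_)
    rw [hpow hp]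
  have h := (EulerProduct.summable_and_hasSum_smoothNumbers_prod_primesBelow_tsum hf1 hmul hsum
    (x + 1)).2
  have hP : ∏ p ∈ (x + 1).primesBelow, ∑' n : ℕ, peuf D s (p ^ n) = peuP D s x := by
    rw [peuP]
    have hset : (x + 1).primesBelow = PP 0 x := by
      ext p
      rw [Nat.mem_primesBelow, PP, Finset.mem_filter, Finset.mem_Ioc]
      constructor
      · rintro ⟨a1, a2⟩; exact ⟨⟨a2.pos, by omega⟩, a2⟩
      · rintro ⟨⟨_, a1⟩, a2⟩; exact ⟨by omega, a2⟩
    rw [hset]
    apply Finset.prod_congr rfl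
    intro p hp
    rw [PP, Finset.mem_filter] at hp
    obtain ⟨b1, b2, b3⟩ := hbd hp.2
    rw [tsum_congr (hpow hp.2)]
    exact (peu_local b1 b2 b3).2
  rw [hP] at h
  exact h

/-- The local factor is increasing with a controlled ratio. -/
theorem peu_ratio {u y : ℝ} (χ : ℤ) (hχ : |χ| ≤ 1) (hu : 0 ≤ u) (huy : u ≤ y) (hy : y ≤ 13 / 20) :
    (1 - y)⁻¹ * (1 - (χ : ℝ) * y)⁻¹ ≤
      ((1 - u)⁻¹ * (1 - (χ : ℝ) * u)⁻¹) * Real.exp (6 * (y - u)) := by
  have h1 : (1 - y)⁻¹ ≤ (1 - u)⁻¹ * Real.exp (3 * (y - u)) := by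
    have h2 : (1 - u) ≤ (1 - y) * Real.exp (3 * (y - u)) := by
      have h3 := Real.add_one_le_exp (3 * (y - u))
      have h4 : (1 - y) * (3 * (y - u) + 1) ≤ (1 - y) * Real.exp (3 * (y - u)) :=
        mul_le_mul_of_nonneg_left h3 (by linarith)
      nlinarith
    have hy0 : 0 < 1 - y := by linarith
    have hu0 : 0 < 1 - u := by linarith
    rw [inv_mul_eq_div, le_div_iff₀ hu0, inv_mul_le_iff₀ hy0]
    exact h2
  have h2 : (1 - (χ : ℝ) * y)⁻¹ ≤ (1 - (χ : ℝ) * u)⁻¹ * Real.exp (3 * (y - u)) := by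
    have hc : χ = -1 ∨ χ = 0 ∨ χ = 1 := by
      rw [abs_le] at hχ; omega
    have hexp : 1 ≤ Real.exp (3 * (y - u)) := Real.one_le_exp (by linarith)
    rcases hc with rfl | rfl | rfl
    · push_cast
      have h3 : (1 - -1 * y)⁻¹ ≤ (1 - -1 * u)⁻¹ :=
        inv_anti₀ (by linarith) (by linarith)
      have h4 : 0 ≤ (1 - -1 * u)⁻¹ := inv_nonneg.mpr (by linarith)
      nlinarith
    · push_cast
      simp only [zero_mul, sub_zero, inv_one, one_mul]
      exact hexp
    · push_cast
      rw [one_mul, one_mul]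
      exact h1
  have hpos : ∀ z : ℝ, 0 ≤ z → z ≤ 13 / 20 → 0 ≤ (1 - (χ : ℝ) * z)⁻¹ := by
    intro z hz hz1
    apply inv_nonneg.mpr
    have hc : χ = -1 ∨ χ = 0 ∨ χ = 1 := by
      rw [abs_le] at hχ; omega
    rcases hc with rfl | rfl | rfl <;> push_cast <;> linarith
  calc (1 - y)⁻¹ * (1 - (χ : ℝ) * y)⁻¹ ≤
      ((1 - u)⁻¹ * Real.exp (3 * (y - u))) * ((1 - (χ : ℝ) * u)⁻¹ * Real.exp (3 * (y - u))) := by
        apply mul_le_mul h1 h2 (hpos y (by linarith) hy)
        have : 0 ≤ (1 - u)⁻¹ := inv_nonneg.mpr (by linarith)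
        positivity
    _ = ((1 - u)⁻¹ * (1 - (χ : ℝ) * u)⁻¹) * Real.exp (6 * (y - u)) := by
        have : Real.exp (6 * (y - u)) = Real.exp (3 * (y - u)) * Real.exp (3 * (y - u)) := by
          rw [← Real.exp_add]; congr 1; ring
        rw [this]; ring

theorem peu_exp_quarter : Real.exp (1 / 4) ≤ 13 / 10 := by
  have h := Real.exp_bound' (x := 1 / 4) (by norm_num) (by norm_num) (n := 3) (by norm_num)
  refine le_trans h ?_
  simp only [Finset.sum_range_succ, Finset.sum_range_zero]
  norm_num [Nat.factorial]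

theorem st_PEU (hMT1 : ST_MT1) (hCHI : ST_CHI) : ST_PEU := by
  obtain ⟨C, hC0, hC⟩ := hMT1
  obtain ⟨k, hk⟩ : ∃ k : ℕ, 4 * (3 + 3 * C) ≤ k := exists_nat_ge _
  have hk1 : 1 ≤ k := by
    by_contra hc
    have : k = 0 := by omega
    rw [this] at hk
    norm_num at hk
    linarith
  refine ⟨k, hk1, ?_⟩
  intro D x hD hx
  obtain ⟨h1, hm, hb, _, _, hrr⟩ := hCHI D hD
  have hxR : (2 : ℝ) ≤ x := by exact_mod_cast hx
  have hlx : 0 < Real.log x := Real.log_pos (by linarith)
  have hl2 : Real.log 2 ≤ Real.log x := Real.log_le_log (by norm_num) hxR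
  have hln2 : (0.6931471803 : ℝ) < Real.log 2 := Real.log_two_gt_d9
  -- the terms
  have hterm : ∀ n : ℕ, (rr D n : ℝ) / n = peuf D 1 n := by
    intro n
    rw [peuf, Real.rpow_neg_one]
    rfl
  have hfnn : ∀ (s : ℝ) (n : ℕ), 0 ≤ peuf D s n := by
    intro s n
    rw [peuf]
    apply mul_nonneg _ (Real.rpow_nonneg (Nat.cast_nonneg _) _)
    rcases Nat.eq_zero_or_pos n with h | h
    · rw [h, rr]; simp
    · exact_mod_cast hrr n h
  have hPE : PE D x = peuP D 1 x := by
    rw [PE, peuP]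
    apply Finset.prod_congr rfl
    intro p _
    rw [Real.rpow_neg_one]
    ring
  have hS1 := peu_hasSum h1 hm hb one_pos x
  rw [← hPE] at hS1
  -- finite partial sums
  have hfin : ∀ y : ℕ, Rr D y = ∑ n ∈ Icc 1 y, peuf D 1 n := by
    intro y
    rw [Rr]
    exact Finset.sum_congr rfl (fun n _ => hterm n)
  constructor
  · rw [hfin]
    have hmem : ∀ n ∈ Icc 1 x, n ∈ (x + 1).smoothNumbers := by
      intro n hn
      rw [Finset.mem_Icc] at hn
      exact Nat.mem_smoothNumbers_of_lt (by omega) (by omega)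
    have h2 : ∑ n ∈ Icc 1 x, peuf D 1 n =
        ∑ n ∈ (Icc 1 x).attach, peuf D 1 (⟨n, hmem n n.2⟩ : (x + 1).smoothNumbers) := by
      rw [← Finset.sum_attach]
    have hinj : Function.Injective
        (fun n : {n // n ∈ Icc 1 x} => (⟨n, hmem n n.2⟩ : (x + 1).smoothNumbers)) := by
      intro a b hab
      have := congrArg Subtype.val hab
      exact Subtype.ext this
    have h3 : ∑ n ∈ (Icc 1 x).attach, peuf D 1 (⟨n, hmem n n.2⟩ : (x + 1).smoothNumbers) =
        ∑ m ∈ ((Icc 1 x).attach).map ⟨_, hinj⟩, peuf D 1 (m : (x + 1).smoothNumbers) := by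
      rw [Finset.sum_map]
      rfl
    rw [h2, h3]
    exact sum_le_hasSum _ (fun m _ => hfnn 1 m) hS1
  · -- Rankin's trick
    obtain ⟨η, hη⟩ : ∃ η, η = 1 / (4 * Real.log x) := ⟨_, rfl⟩
    have hη0 : 0 < η := by rw [hη]; positivity
    have hηx : η * Real.log x = 1 / 4 := by rw [hη]; field_simp
    have hη1 : η ≤ 37 / 100 := by
      rw [hη, div_le_iff₀ (by positivity)]; linarith
    have hs : 0 < 1 - η := by linarith
    have hSs := peu_hasSum h1 hm hb hs x
    -- comparison of the products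
    have hprod : peuP D (1 - η) x ≤ PE D x * Real.exp (2 + 3 * C) := by
      have hfac : ∀ p ∈ PP 0 x, (1 - (p : ℝ) ^ (-(1 - η)))⁻¹ *
          (1 - (chi D p : ℝ) * (p : ℝ) ^ (-(1 - η)))⁻¹ ≤
          ((1 - 1 / (p : ℝ))⁻¹ * (1 - (chi D p : ℝ) / p)⁻¹) *
            Real.exp (8 * η * (Real.log p / p)) := by
        intro p hp
        rw [PP, Finset.mem_filter, Finset.mem_Ioc] at hp
        have hp2 : (2 : ℝ) ≤ p := by exact_mod_cast hp.2.two_le
        have hp0 : (0 : ℝ) < p := by linarith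
        have hpx : (p : ℝ) ≤ x := by exact_mod_cast hp.1.2
        have hlp : 0 < Real.log p := Real.log_pos (by linarith)
        have hlpx : Real.log p ≤ Real.log x := Real.log_le_log hp0 hpx
        obtain ⟨r, hr⟩ : ∃ r, r = Real.exp (η * Real.log p) := ⟨_, rfl⟩
        have hy : (p : ℝ) ^ (-(1 - η)) = r / p := by
          rw [show -(1 - η) = η - 1 by ring, Real.rpow_sub hp0, Real.rpow_one, hr,
            Real.rpow_def_of_pos hp0, mul_comm]
        have hr1 : 1 ≤ r := by rw [hr]; exact Real.one_le_exp (by positivity)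
        have hr2 : r ≤ 13 / 10 := by
          rw [hr]
          refine le_trans (Real.exp_le_exp.mpr ?_) peu_exp_quarter
          rw [← hηx]
          exact mul_le_mul_of_nonneg_left hlpx hη0.le
        have hr3 : r - 1 ≤ 13 / 10 * (η * Real.log p) := by
          have h2 := Real.add_one_le_exp (-(η * Real.log p))
          have h3 : Real.exp (-(η * Real.log p)) * r = 1 := by
            rw [hr, ← Real.exp_add]; simp
          have h4 : (-(η * Real.log p) + 1) * r ≤ Real.exp (-(η * Real.log p)) * r :=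
            mul_le_mul_of_nonneg_right h2 (by linarith)
          have h5 : 0 ≤ η * Real.log p := by positivity
          nlinarith
        have h6 := peu_ratio (u := 1 / (p : ℝ)) (y := r / p) (chi D p) (hb p) (by positivity)
          (div_le_div_of_nonneg_right hr1 hp0.le)
          (by rw [div_le_iff₀ hp0]; nlinarith)
        rw [hy]
        have h7 : (chi D p : ℝ) / p = (chi D p : ℝ) * (1 / (p : ℝ)) := by ring
        rw [h7]
        refine le_trans h6 ?_
        have h8 : 6 * (r / p - 1 / (p : ℝ)) ≤ 8 * η * (Real.log p / p) := by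
          rw [← sub_div, ← mul_div_assoc, ← mul_div_assoc]
          apply div_le_div_of_nonneg_right _ hp0.le
          have h5 : 0 ≤ η * Real.log p := by positivity
          nlinarith
        apply mul_le_mul_of_nonneg_left (Real.exp_le_exp.mpr h8)
        have h9 : (1 : ℝ) / p ≤ 1 / 2 := one_div_le_one_div_of_le (by norm_num) hp2
        have h10 : |(chi D p : ℝ)| ≤ 1 := by exact_mod_cast hb p
        have h11 : (chi D p : ℝ) * (1 / (p : ℝ)) ≤ 1 / 2 := by
          have h12 := (abs_le.mp h10).2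
          have h13 : (0 : ℝ) ≤ 1 / p := by positivity
          nlinarith
        apply mul_nonneg
        · exact inv_nonneg.mpr (by linarith)
        · exact inv_nonneg.mpr (by linarith)
      have hsum8 : ∑ p ∈ PP 0 x, 8 * η * (Real.log p / p) ≤ 2 + 3 * C := by
        rw [← Finset.mul_sum]
        have h2 := hC x hx
        calc 8 * η * ∑ p ∈ PP 0 x, Real.log p / p ≤ 8 * η * (Real.log x + C) :=
              mul_le_mul_of_nonneg_left h2 (by positivity)
          _ = 8 * (η * Real.log x) + 8 * η * C := by ring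
          _ = 2 + 8 * η * C := by rw [hηx]; norm_num
          _ ≤ 2 + 3 * C := by nlinarith
      rw [peuP]
      calc ∏ p ∈ PP 0 x, ((1 - (p : ℝ) ^ (-(1 - η)))⁻¹ *
          (1 - (chi D p : ℝ) * (p : ℝ) ^ (-(1 - η)))⁻¹) ≤
          ∏ p ∈ PP 0 x, (((1 - 1 / (p : ℝ))⁻¹ * (1 - (chi D p : ℝ) / p)⁻¹) *
            Real.exp (8 * η * (Real.log p / p))) := by
            apply Finset.prod_le_prod
            · intro p hp
              rw [PP, Finset.mem_filter, Finset.mem_Ioc] at hp
              have hlt : (p : ℝ) ^ (-(1 - η)) < 1 :=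
                Real.rpow_lt_one_of_one_lt_of_neg (by exact_mod_cast hp.2.one_lt) (by linarith)
              have hge : 0 ≤ (p : ℝ) ^ (-(1 - η)) := Real.rpow_nonneg (Nat.cast_nonneg _) _
              have h10 : |(chi D p : ℝ)| ≤ 1 := by exact_mod_cast hb p
              have h12 := (abs_le.mp h10).2
              apply mul_nonneg
              · exact inv_nonneg.mpr (by linarith)
              · exact inv_nonneg.mpr (by nlinarith)
            · exact hfac
        _ = PE D x * Real.exp (∑ p ∈ PP 0 x, 8 * η * (Real.log p / p)) := by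
            rw [Finset.prod_mul_distrib, PE, Real.exp_sum]
        _ ≤ PE D x * Real.exp (2 + 3 * C) := by
            apply mul_le_mul_of_nonneg_left (Real.exp_le_exp.mpr hsum8)
            rw [← hS1.tsum_eq]
            exact tsum_nonneg (fun m => hfnn 1 m)
    -- the tail
    have hpt : ∀ m : (x + 1).smoothNumbers, peuf D 1 m ≤
        (if (m : ℕ) ≤ x ^ k then peuf D 1 m else 0) +
          Real.exp (-((k : ℝ) / 4)) * peuf D (1 - η) m := by
      intro m
      have hnn : 0 ≤ Real.exp (-((k : ℝ) / 4)) * peuf D (1 - η) m :=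
        mul_nonneg (Real.exp_pos _).le (hfnn _ _)
      by_cases hmk : (m : ℕ) ≤ x ^ k
      · rw [if_pos hmk]; linarith
      · rw [if_neg hmk, zero_add]
        push Not at hmk
        have hm0 : (0 : ℝ) < (m : ℕ) := by
          have : 0 < (m : ℕ) := by omega
          exact_mod_cast this
        have hmk' : ((x : ℝ) ^ k) ≤ (m : ℕ) := by exact_mod_cast hmk.le
        have hlog : (k : ℝ) * Real.log x ≤ Real.log (m : ℕ) := by
          rw [← Real.log_pow]
          exact Real.log_le_log (by positivity) hmk'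
        rw [peuf, peuf, mul_left_comm]
        apply mul_le_mul_of_nonneg_left
        · have h2 : ((m : ℕ) : ℝ) ^ (-(1 : ℝ)) = ((m : ℕ) : ℝ) ^ (-η) * ((m : ℕ) : ℝ) ^ (-(1 - η)) := by
            rw [← Real.rpow_add hm0]; congr 1; ring
          rw [h2]
          apply mul_le_mul_of_nonneg_right _ (Real.rpow_nonneg hm0.le _)
          rw [Real.rpow_def_of_pos hm0]
          apply Real.exp_le_exp.mpr
          have h3 : η * ((k : ℝ) * Real.log x) ≤ η * Real.log (m : ℕ) :=
            mul_le_mul_of_nonneg_left hlog hη0.le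
          have h4 : η * ((k : ℝ) * Real.log x) = (k : ℝ) / 4 := by
            rw [mul_left_comm, hηx]; ring
          linarith
        · have hm1 : 1 ≤ (m : ℕ) := by omega
          exact_mod_cast hrr m hm1
    -- the head
    have hhead : Summable (fun m : (x + 1).smoothNumbers =>
        if (m : ℕ) ≤ x ^ k then peuf D 1 m else 0) := by
      refine Summable.of_nonneg_of_le (fun m => ?_) (fun m => ?_) hS1.summable
      · split_ifs
        · exact hfnn _ _
        · exact le_rfl
      · split_ifs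
        · exact le_rfl
        · exact hfnn _ _
    have hheadle : ∑' m : (x + 1).smoothNumbers,
        (if (m : ℕ) ≤ x ^ k then peuf D 1 m else 0) ≤ Rr D (x ^ k) := by
      apply hhead.tsum_le_of_sum_le
      intro s
      rw [hfin, ← Finset.sum_filter]
      have hmap : ∑ m ∈ s.filter (fun m : (x + 1).smoothNumbers => (m : ℕ) ≤ x ^ k), peuf D 1 m =
          ∑ n ∈ (s.filter (fun m : (x + 1).smoothNumbers => (m : ℕ) ≤ x ^ k)).map
            (Function.Embedding.subtype _), peuf D 1 n := by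
        rw [Finset.sum_map]
        rfl
      rw [hmap]
      apply Finset.sum_le_sum_of_subset_of_nonneg
      · intro n hn
        rw [Finset.mem_map] at hn
        obtain ⟨m, hm1, hm2⟩ := hn
        rw [Finset.mem_filter] at hm1
        have hm3 : (m : ℕ) ≠ 0 := Nat.ne_zero_of_mem_smoothNumbers m.2
        have hm4 : (m : ℕ) = n := hm2
        rw [Finset.mem_Icc]
        omega
      · intro n _ _
        exact hfnn _ _
    have htot : PE D x ≤ Rr D (x ^ k) + Real.exp (-((k : ℝ) / 4)) * peuP D (1 - η) x := by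
      rw [← hS1.tsum_eq, ← hSs.tsum_eq, ← tsum_mul_left]
      refine le_trans ?_ (add_le_add_left hheadle _)
      rw [← hhead.tsum_add (hSs.summable.mul_left _)]
      exact hS1.summable.tsum_le_tsum hpt (hhead.add (hSs.summable.mul_left _))
    have hPE0 : 0 ≤ PE D x := by
      rw [← hS1.tsum_eq]
      exact tsum_nonneg (fun m => hfnn 1 m)
    have hhalf : Real.exp (-((k : ℝ) / 4)) * peuP D (1 - η) x ≤ PE D x / 2 := by
      calc Real.exp (-((k : ℝ) / 4)) * peuP D (1 - η) x ≤
          Real.exp (-((k : ℝ) / 4)) * (PE D x * Real.exp (2 + 3 * C)) :=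
            mul_le_mul_of_nonneg_left hprod (Real.exp_pos _).le
        _ = PE D x * Real.exp (-((k : ℝ) / 4) + (2 + 3 * C)) := by
            rw [Real.exp_add (-((k : ℝ) / 4)) (2 + 3 * C)]; ring
        _ ≤ PE D x * Real.exp (-1) := by
            apply mul_le_mul_of_nonneg_left _ hPE0
            apply Real.exp_le_exp.mpr
            linarith
        _ ≤ PE D x * (1 / 2) := by
            apply mul_le_mul_of_nonneg_left _ hPE0
            have := Real.exp_neg_one_lt_d9
            linarith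
        _ = PE D x / 2 := by ring
    linarith

end Pool.Agent.Helper47.UG
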