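import Pool.Agent.Helper47.UG.Stmts

set_option autoImplicit false

/-!
Project UG, row RRT: growth of the logarithmic sum.
-/

namespace Pool.Agent.Helper47.UG

open Finset
open Pool.Agent.Helper17.SO (PP LL)

theorem rrt_Rr_ge {D : ℕ} (h1 : chi D 1 = 1) (hrr : ∀ n : ℕ, 1 ≤ n → 0 ≤ rr D n) {x : ℕ}
    (hx : 1 ≤ x) : 1 ≤ Rr D x := by
  rw [Rr]
  have h2 : (rr D 1 : ℝ) / (1 : ℕ) = 1 := by
    rw [rr, Nat.divisors_one, Finset.sum_singleton, h1]; simp
  calc (1 : ℝ) = (rr D 1 : ℝ) / (1 : ℕ) := h2.symm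
    _ ≤ ∑ n ∈ Icc 1 x, (rr D n : ℝ) / n := by
        apply Finset.single_le_sum (f := fun n : ℕ => (rr D n : ℝ) / n)
        · intro n hn
          rw [Finset.mem_Icc] at hn
          apply div_nonneg _ (Nat.cast_nonneg _)
          exact_mod_cast hrr n hn.1
        · rw [Finset.mem_Icc]; exact ⟨le_rfl, hx⟩

theorem rrt_err {C : ℝ} (hC : 0 < C) : ∃ A : ℕ, 1 ≤ A ∧ ∀ D x : ℕ, 1 ≤ D → (4 * D) ^ A ≤ x →
    C * D * Real.log x / Real.sqrt x ≤ 1 / 8 := by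
  obtain ⟨A', hA'⟩ := pow_unbounded_of_one_lt ((64 * C) ^ 8) (by norm_num : (1 : ℝ) < 4)
  refine ⟨A' + 4, by omega, ?_⟩
  intro D x hD hx
  have hD1 : (1 : ℝ) ≤ D := by exact_mod_cast hD
  have hx' : (4 * (D : ℝ)) ^ (A' + 4) ≤ x := by exact_mod_cast hx
  have hx1 : (1 : ℝ) ≤ x := le_trans (one_le_pow₀ (by linarith)) hx'
  have hx0 : (0 : ℝ) < x := by linarith
  obtain ⟨y, hy⟩ : ∃ y : ℝ, y = (x : ℝ) ^ (1 / 8 : ℝ) := ⟨_, rfl⟩
  have hy0 : 0 < y := by rw [hy]; exact Real.rpow_pos_of_pos hx0 _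
  have hy8 : y ^ 8 = x := by
    rw [hy, ← Real.rpow_natCast, ← Real.rpow_mul hx0.le]
    norm_num
  have hlog : Real.log x ≤ 8 * y := by
    rw [← hy8, Real.log_pow]
    have := Real.log_le_sub_one_of_pos hy0
    push_cast
    linarith
  have hsq : Real.sqrt x = y ^ 4 := by
    rw [← hy8, show y ^ 8 = (y ^ 4) ^ 2 by ring, Real.sqrt_sq (by positivity)]
  have hDy : (D : ℝ) ≤ y ^ 2 := by
    have h1 : (D : ℝ) ^ 4 ≤ (y ^ 2) ^ 4 := by
      calc (D : ℝ) ^ 4 ≤ (4 * (D : ℝ)) ^ 4 := pow_le_pow_left₀ (by linarith) (by linarith) 4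
        _ ≤ (4 * (D : ℝ)) ^ (A' + 4) := pow_le_pow_right₀ (by linarith) (by omega)
        _ ≤ x := hx'
        _ = (y ^ 2) ^ 4 := by rw [← hy8]; ring
    exact le_of_pow_le_pow_left₀ (by norm_num) (by positivity) h1
  have hyC : 64 * C ≤ y := by
    have h1 : (64 * C) ^ 8 ≤ y ^ 8 := by
      rw [hy8]
      calc (64 * C) ^ 8 ≤ 4 ^ A' := hA'.le
        _ ≤ (4 * (D : ℝ)) ^ A' := pow_le_pow_left₀ (by norm_num) (by linarith) A'
        _ ≤ (4 * (D : ℝ)) ^ (A' + 4) := pow_le_pow_right₀ (by linarith) (by omega)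
        _ ≤ x := hx'
    exact le_of_pow_le_pow_left₀ (by norm_num) hy0.le h1
  have hlx : 0 ≤ Real.log x := Real.log_nonneg hx1
  rw [hsq, div_le_iff₀ (by positivity)]
  calc C * D * Real.log x ≤ C * y ^ 2 * (8 * y) := by
        apply mul_le_mul _ hlog hlx (by positivity)
        exact mul_le_mul_of_nonneg_left hDy hC.le
    _ = 1 / 8 * (64 * C) * y ^ 3 := by ring
    _ ≤ 1 / 8 * y * y ^ 3 := by
        apply mul_le_mul_of_nonneg_right _ (by positivity)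
        linarith
    _ = 1 / 8 * y ^ 4 := by ring

/-- The numerical inequality. -/
theorem rrt_num {α β a b a0 k R0 Rw Rk : ℝ} (ha0 : 0 < a0) (ha : 2 * a0 ≤ a) (hab : a ≤ b)
    (hk : 1 ≤ k) (h0 : |R0 - (α * a0 + β)| ≤ 1 / 8) (hw : |Rw - (α * a + β)| ≤ 1 / 8)
    (hK : |Rk - (α * (k * b) + β)| ≤ 1 / 8) (hR0 : 1 ≤ R0) (hRw : 1 ≤ Rw) :
    Rk * a ≤ 4 * k * b * Rw := by
  obtain ⟨h0a, h0b⟩ := abs_le.mp h0
  obtain ⟨hwa, hwb⟩ := abs_le.mp hw
  obtain ⟨hKa, hKb⟩ := abs_le.mp hK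
  have ha1 : 0 < a := by linarith
  have hb1 : 0 < b := by linarith
  have hkb : b ≤ k * b := by nlinarith
  have hkb0 : 0 < k * b := by linarith
  have hakb : a ≤ k * b := by linarith
  have hkbR : k * b ≤ k * b * Rw := by nlinarith
  rcases le_or_gt α 0 with hα | hα
  · have h1 : α * (k * b) ≤ α * a := mul_le_mul_of_nonpos_left hakb hα
    have h2 : Rk ≤ 2 * Rw := by linarith
    calc Rk * a ≤ 2 * Rw * a := mul_le_mul_of_nonneg_right h2 ha1.le
      _ ≤ 2 * Rw * (k * b) := mul_le_mul_of_nonneg_left hakb (by linarith)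
      _ ≤ 4 * k * b * Rw := by nlinarith
  · rcases le_or_gt 0 β with hβ | hβ
    · have h1 : Rk * a ≤ (α * (k * b) + β + 1 / 8) * a :=
        mul_le_mul_of_nonneg_right (by linarith) ha1.le
      have h2 : β * a ≤ β * (k * b) := mul_le_mul_of_nonneg_left hakb hβ
      have h3 : (α * a + β) * (k * b) ≤ (Rw + 1 / 8) * (k * b) :=
        mul_le_mul_of_nonneg_right (by linarith) hkb0.le
      nlinarith
    · have h1 : α * a0 + β ≥ 7 / 8 := by linarith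
      have h2 : α * a / 2 ≤ Rw + 1 / 8 := by nlinarith
      have h3 : Rk * a ≤ (α * (k * b) + 1 / 8) * a :=
        mul_le_mul_of_nonneg_right (by linarith) ha1.le
      have h4 : (α * a / 2) * (2 * (k * b)) ≤ (Rw + 1 / 8) * (2 * (k * b)) :=
        mul_le_mul_of_nonneg_right h2 (by positivity)
      nlinarith

theorem st_RRT (hCHI : ST_CHI) (hRSA : ST_RSA) : ST_RRT := by
  obtain ⟨C, hC, hS⟩ := hRSA
  obtain ⟨A, hA1, hA⟩ := rrt_err hC
  intro k hk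
  have hk1 : (1 : ℝ) ≤ k := by exact_mod_cast hk
  refine ⟨2 * A, 4 * k, by positivity, ?_⟩
  intro D w z hD hAw hwz hw
  obtain ⟨h1, _, _, _, _, hrr⟩ := hCHI D hD
  obtain ⟨w0, hw0⟩ : ∃ w0, w0 = (4 * D) ^ A := ⟨_, rfl⟩
  have hw04 : 4 ≤ w0 := by
    rw [hw0]
    calc 4 ≤ 4 * D := by omega
      _ = (4 * D) ^ 1 := (pow_one _).symm
      _ ≤ (4 * D) ^ A := Nat.pow_le_pow_right (by omega) hA1
  have hw0w : w0 ^ 2 ≤ w := by
    rw [hw0, ← pow_mul, mul_comm A 2]; exact hAw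
  have hw0w' : w0 ≤ w := le_trans (by nlinarith) hw0w
  have hzk : z ≤ z ^ k := by
    calc z = z ^ 1 := (pow_one z).symm
      _ ≤ z ^ k := Nat.pow_le_pow_right (by omega) hk
  obtain ⟨α, β, hαβ⟩ := hS D (z ^ k) hD
  have hest : ∀ x : ℕ, w0 ≤ x → x ≤ z ^ k → |Rr D x - (α * Real.log x + β)| ≤ 1 / 8 := by
    intro x hx1 hx2
    exact le_trans (hαβ x (by omega) hx2) (hA D x hD (by rw [← hw0]; exact hx1))
  have e0 := hest w0 le_rfl (by omega)
  have ew := hest w hw0w' (by omega)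
  have ek := hest (z ^ k) (by omega) le_rfl
  push_cast at ek
  rw [Real.log_pow] at ek
  have hw0R : (4 : ℝ) ≤ w0 := by exact_mod_cast hw04
  have hwR : (2 : ℝ) ≤ w := by exact_mod_cast hw
  have hwzR : (w : ℝ) ≤ z := by exact_mod_cast hwz
  have hl0 : 0 < Real.log w0 := Real.log_pos (by linarith)
  have hl1 : 2 * Real.log w0 ≤ Real.log w := by
    have : Real.log ((w0 : ℝ) ^ 2) ≤ Real.log w :=
      Real.log_le_log (by positivity) (by exact_mod_cast hw0w)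
    rw [Real.log_pow] at this
    push_cast at this
    exact this
  have hl2 : Real.log w ≤ Real.log z := Real.log_le_log (by linarith) hwzR
  exact rrt_num hl0 hl1 hl2 hk1 e0 ew ek (rrt_Rr_ge h1 hrr (by omega)) (rrt_Rr_ge h1 hrr (by omega))

end Pool.Agent.Helper47.UG
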