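import Pool.Agent.Helper47.UG.Stmts

set_option autoImplicit false

/-!
Project UG, row TLF: the uniform Mertens bound for large split primes.
-/

namespace Pool.Agent.Helper47.UG

open Finset
open scoped Classical
open Pool.Agent.Helper17.SO (PP LL)
open Pool.Agent.Helper37.DG (Spl PD)

/-- the local factor of the Euler product -/
noncomputable def tlfF (D p : ℕ) : ℝ := (1 - 1 / (p : ℝ))⁻¹ * (1 - (chi D p : ℝ) / p)⁻¹

theorem tlf_split {D w z : ℕ} (hwz : w ≤ z) :
    PE D z = PE D w * ∏ p ∈ PP w z, tlfF D p := by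
  have hu : PP 0 z = PP 0 w ∪ PP w z := by
    rw [PP, PP, PP, ← Finset.filter_union, Finset.Ioc_union_Ioc_eq_Ioc (Nat.zero_le _) hwz]
  have hd : Disjoint (PP 0 w) (PP w z) := by
    rw [PP, PP]
    apply Finset.disjoint_filter_filter
    rw [Finset.disjoint_left]
    intro a ha hb
    rw [Finset.mem_Ioc] at ha hb
    omega
  rw [PE, PE, hu, Finset.prod_union hd]
  rfl

theorem tlf_pos {D p : ℕ} (hb : ∀ n : ℕ, |chi D n| ≤ 1) (hp : p.Prime) :
    0 < 1 - 1 / (p : ℝ) ∧ 0 < 1 - (chi D p : ℝ) / p := by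
  have hp2 : (2 : ℝ) ≤ p := by exact_mod_cast hp.two_le
  have hp0 : (0 : ℝ) < p := by linarith
  have h1 : 1 / (p : ℝ) ≤ 1 / 2 := one_div_le_one_div_of_le (by norm_num) hp2
  have h2 : |(chi D p : ℝ)| ≤ 1 := by exact_mod_cast hb p
  have h3 : (chi D p : ℝ) / p ≤ 1 / p :=
    div_le_div_of_nonneg_right (abs_le.mp h2).2 hp0.le
  constructor <;> linarith

theorem tlf_log {D p : ℕ} (hb : ∀ n : ℕ, |chi D n| ≤ 1) (hp : p.Prime) :
    (1 + (chi D p : ℝ)) / p ≤ Real.log (tlfF D p) := by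
  obtain ⟨h1, h2⟩ := tlf_pos (D := D) hb hp
  rw [tlfF, Real.log_mul (inv_pos.mpr h1).ne' (inv_pos.mpr h2).ne', Real.log_inv, Real.log_inv]
  have h3 := Real.log_le_sub_one_of_pos h1
  have h4 := Real.log_le_sub_one_of_pos h2
  rw [add_div]
  linarith

theorem st_TLF (hCHI : ST_CHI) (hRRT : ST_RRT) (hPEU : ST_PEU) : ST_TLF := by
  obtain ⟨k, hk, hP⟩ := hPEU
  obtain ⟨A₁, C, hC, hR⟩ := hRRT k hk
  refine ⟨A₁, Real.log (2 * C) / 2, ?_⟩
  intro D w z hD hA hw hwz
  obtain ⟨_, _, hb, _, hspl, _⟩ := hCHI D hD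
  have hw2 : (2 : ℝ) ≤ w := by exact_mod_cast hw
  have hwz' : (w : ℝ) ≤ z := by exact_mod_cast hwz
  have hlw : 0 < Real.log w := Real.log_pos (by linarith)
  have hlz : 0 < Real.log z := Real.log_pos (by linarith)
  obtain ⟨h1, _⟩ := hP D w hD hw
  obtain ⟨_, h2⟩ := hP D z hD (le_trans hw hwz)
  have h3 := hR D w z hD hA hwz hw
  have hFpos : ∀ p : ℕ, p.Prime → 0 < tlfF D p := by
    intro p hp
    obtain ⟨a, b⟩ := tlf_pos (D := D) hb hp
    exact mul_pos (inv_pos.mpr a) (inv_pos.mpr b)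
  have hPEw : 0 < PE D w := by
    rw [PE]
    apply Finset.prod_pos
    intro p hp
    exact hFpos p (Finset.mem_filter.mp hp).2
  have hprod : 0 < ∏ p ∈ PP w z, tlfF D p :=
    Finset.prod_pos (fun p hp => hFpos p (Finset.mem_filter.mp hp).2)
  have h4 : (∏ p ∈ PP w z, tlfF D p) ≤ 2 * C * (Real.log z / Real.log w) := by
    rw [tlf_split hwz] at h2
    have h5 : PE D w * (∏ p ∈ PP w z, tlfF D p) * Real.log w ≤
        PE D w * (2 * C * Real.log z) := by
      calc PE D w * (∏ p ∈ PP w z, tlfF D p) * Real.log w ≤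
          2 * Rr D (z ^ k) * Real.log w := mul_le_mul_of_nonneg_right h2 hlw.le
        _ = 2 * (Rr D (z ^ k) * Real.log w) := by ring
        _ ≤ 2 * (C * Real.log z * Rr D w) := by linarith
        _ ≤ 2 * (C * Real.log z * PE D w) := by
            have : C * Real.log z * Rr D w ≤ C * Real.log z * PE D w :=
              mul_le_mul_of_nonneg_left h1 (by positivity)
            linarith
        _ = PE D w * (2 * C * Real.log z) := by ring
    rw [mul_assoc] at h5
    have h6 := le_of_mul_le_mul_left h5 hPEw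
    rw [← mul_div_assoc, le_div_iff₀ hlw]
    exact h6
  have h5 : ∑ p ∈ PP w z, Real.log (tlfF D p) ≤ Real.log (2 * C) + LL w z := by
    have h6 : ∑ p ∈ PP w z, Real.log (tlfF D p) = Real.log (∏ p ∈ PP w z, tlfF D p) := by
      rw [Real.log_prod]
      intro p hp
      exact (hFpos p (Finset.mem_filter.mp hp).2).ne'
    rw [h6, LL, ← Real.log_mul (by positivity) (by positivity)]
    exact Real.log_le_log hprod h4
  have h6 : ∑ p ∈ PP w z, (1 + (chi D p : ℝ)) / p ≤ ∑ p ∈ PP w z, Real.log (tlfF D p) :=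
    Finset.sum_le_sum (fun p hp => tlf_log hb (Finset.mem_filter.mp hp).2)
  have h7 : ∑ p ∈ PD D w z, 2 / (p : ℝ) ≤ ∑ p ∈ PP w z, (1 + (chi D p : ℝ)) / p := by
    calc ∑ p ∈ PD D w z, 2 / (p : ℝ) = ∑ p ∈ PD D w z, (1 + (chi D p : ℝ)) / p := by
          apply Finset.sum_congr rfl
          intro p hp
          rw [PD, Finset.mem_filter] at hp
          rw [hspl p hp.2.1 hp.2]
          norm_num
      _ ≤ _ := by
          apply Finset.sum_le_sum_of_subset_of_nonneg
          · exact Finset.filter_subset _ _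
          · intro p hp _
            have h2 : |(chi D p : ℝ)| ≤ 1 := by exact_mod_cast hb p
            have := (abs_le.mp h2).1
            apply div_nonneg (by linarith) (Nat.cast_nonneg _)
  have h8 : ∑ p ∈ PD D w z, 2 / (p : ℝ) = 2 * ∑ p ∈ PD D w z, 1 / (p : ℝ) := by
    rw [Finset.mul_sum]
    apply Finset.sum_congr rfl
    intro p _
    ring
  linarith

end Pool.Agent.Helper47.UG
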