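import Pool.Agent.Helper47.UG.Stmts

set_option autoImplicit false

/-!
Project UG, row TLT: the uniform Mertens bound for split primes.
-/

namespace Pool.Agent.Helper47.UG

open Finset
open scoped Classical
open Pool.Agent.Helper17.SO (PP LL)
open Pool.Agent.Helper37.DG (Spl PD)

theorem tlt_PD_le (D u w : ℕ) : ∑ p ∈ PD D u w, 1 / (p : ℝ) ≤ ∑ p ∈ PP u w, 1 / (p : ℝ) := by
  apply Finset.sum_le_sum_of_subset_of_nonneg
  · exact Finset.filter_subset _ _
  · intro p _ _
    positivity

theorem tlt_split {D u v w : ℕ} (h1 : u ≤ v) (h2 : v ≤ w) :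
    ∑ p ∈ PD D u w, 1 / (p : ℝ) = ∑ p ∈ PD D u v, 1 / (p : ℝ) + ∑ p ∈ PD D v w, 1 / (p : ℝ) := by
  have hu : PP u w = PP u v ∪ PP v w := by
    rw [PP, PP, PP, ← Finset.filter_union, Finset.Ioc_union_Ioc_eq_Ioc h1 h2]
  have hd : Disjoint (PP u v) (PP v w) := by
    rw [PP, PP]
    apply Finset.disjoint_filter_filter
    rw [Finset.disjoint_left]
    intro a ha hb
    rw [Finset.mem_Ioc] at ha hb
    omega
  have hu' : PD D u w = PD D u v ∪ PD D v w := by
    unfold PD
    rw [hu, Finset.filter_union]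
  have hd' : Disjoint (PD D u v) (PD D v w) := by
    unfold PD
    exact Finset.disjoint_filter_filter hd
  rw [hu', Finset.sum_union hd']

theorem st_TLT (hTLF : ST_TLF) (h4 : Pool.Agent.Helper17.SO.ST_MER) : ST_TLT := by
  obtain ⟨A₁, C, hF⟩ := hTLF
  obtain ⟨CM, hCM0, hCM⟩ := h4
  intro T
  obtain ⟨B, hB⟩ : ∃ B : ℝ, B = (A₁ : ℝ) * (2 + T) + 1 := ⟨_, rfl⟩
  have hB1 : 1 ≤ B := by
    rw [hB]
    have : (0 : ℝ) ≤ (A₁ : ℝ) * (2 + T) := by positivity
    linarith
  have hlB : 0 ≤ Real.log B := Real.log_nonneg hB1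
  refine ⟨Real.log B + CM + |C|, ?_⟩
  intro D w z hD hw hwz hDT
  have hw2 : (2 : ℝ) ≤ w := by exact_mod_cast hw
  have hlw : 0 < Real.log w := Real.log_pos (by linarith)
  have hl2 : Real.log 2 ≤ Real.log w := Real.log_le_log (by norm_num) hw2
  obtain ⟨W, hW⟩ : ∃ W, W = max w ((4 * D) ^ A₁) := ⟨_, rfl⟩
  have hwW : w ≤ W := by rw [hW]; exact le_max_left _ _
  have hDW : (4 * D) ^ A₁ ≤ W := by rw [hW]; exact le_max_right _ _
  have hD1 : (1 : ℝ) ≤ D := by exact_mod_cast hD
  have hlogW : Real.log W ≤ B * Real.log w := by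
    have h1 : Real.log (((4 * D) ^ A₁ : ℕ) : ℝ) ≤ (A₁ : ℝ) * (2 + T) * Real.log w := by
      push_cast
      rw [Real.log_pow, Real.log_mul (by norm_num) (by linarith)]
      have h2 : Real.log 4 = 2 * Real.log 2 := by
        rw [show (4 : ℝ) = 2 ^ 2 by norm_num, Real.log_pow]; norm_num
      have h3 : Real.log D ≤ T * Real.log w := by
        rw [← Real.log_pow]
        exact Real.log_le_log (by linarith) (by exact_mod_cast hDT)
      rw [mul_assoc]
      apply mul_le_mul_of_nonneg_left _ (Nat.cast_nonneg _)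
      linarith
    rcases le_total w ((4 * D) ^ A₁) with h | h
    · rw [hW, max_eq_right h]
      rw [hB]
      linarith
    · rw [hW, max_eq_left h]
      nlinarith
  -- the small primes
  have hsmall : ∀ y : ℕ, w ≤ y → y ≤ W → ∑ p ∈ PD D w y, 1 / (p : ℝ) ≤ Real.log B + CM := by
    intro y hy1 hy2
    have h1 := (abs_le.mp (hCM w y hw hy1)).2
    have hy : (w : ℝ) ≤ y := by exact_mod_cast hy1
    have hyW : (y : ℝ) ≤ W := by exact_mod_cast hy2
    have hly : 0 < Real.log y := Real.log_pos (by linarith)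
    have h2 : LL w y ≤ Real.log B := by
      rw [LL]
      apply Real.log_le_log (by positivity)
      rw [div_le_iff₀ hlw]
      exact le_trans (Real.log_le_log (by linarith) hyW) hlogW
    have h3 := tlt_PD_le D w y
    linarith
  have hLLnn : ∀ {a b : ℕ}, 2 ≤ a → a ≤ b → 0 ≤ LL a b := by
    intro a b ha hab
    have ha' : (2 : ℝ) ≤ a := by exact_mod_cast ha
    have hab' : (a : ℝ) ≤ b := by exact_mod_cast hab
    have hla : 0 < Real.log a := Real.log_pos (by linarith)
    rw [LL]
    apply Real.log_nonneg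
    rw [le_div_iff₀ hla, one_mul]
    exact Real.log_le_log (by linarith) hab'
  rcases le_total z W with hzW | hzW
  · have h1 := hsmall z hwz hzW
    have h2 := hLLnn hw hwz
    have h3 := abs_nonneg C
    linarith
  · have h1 := hsmall W hwW le_rfl
    have h2 := hF D W z hD hDW (le_trans hw hwW) hzW
    have h3 : LL W z ≤ LL w z := by
      have hW2 : (w : ℝ) ≤ W := by exact_mod_cast hwW
      have hz2 : (W : ℝ) ≤ z := by exact_mod_cast hzW
      have hlz : 0 < Real.log z := Real.log_pos (by linarith)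
      have hlW : 0 < Real.log W := Real.log_pos (by linarith)
      have hlwW : Real.log w ≤ Real.log W := Real.log_le_log (by linarith) hW2
      rw [LL, LL]
      apply Real.log_le_log (by positivity)
      exact div_le_div_of_nonneg_left hlz.le hlw hlwW
    rw [tlt_split hwW hzW]
    have h4 := le_abs_self C
    linarith

end Pool.Agent.Helper47.UG
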